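import Pool.Agent.Run7.h378.PS.Stm

set_option autoImplicit false

namespace Run7.h355.PS

open MvPolynomial Run7.h378.PS

theorem SOS_map {σ τ : Type} (φ : MvPolynomial σ ℝ →ₐ[ℝ] MvPolynomial τ ℝ) {Q : MvPolynomial σ ℝ}
    (h : SOS Q) : SOS (φ Q) := by
  obtain ⟨r, q, rfl⟩ := h
  exact ⟨r, fun i => φ (q i), by simp⟩

/-- the restriction hom -/
noncomputable def res (M : ℕ) : MvPolynomial (Fin (3 + (M + 1) ^ 2)) ℝ →ₐ[ℝ] MvPolynomial (Fin 3) ℝ :=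
  aeval (Fin.addCases (fun i => X i) (fun _ => C (1 / ((M : ℝ) + 1))))

theorem p_eq (M j : ℕ) : ((M : ℝ) + 1) ^ 2 * (1 / ((M : ℝ) + 1)) ^ (2 * (j + 1)) =
    ((1 / ((M : ℝ) + 1)) ^ 2) ^ j := by
  have h : ((M : ℝ) + 1) ≠ 0 := by positivity
  have h1 : ((M : ℝ) + 1) * (1 / ((M : ℝ) + 1)) = 1 := mul_one_div_cancel h
  calc ((M : ℝ) + 1) ^ 2 * (1 / ((M : ℝ) + 1)) ^ (2 * (j + 1))
      = ((1 / ((M : ℝ) + 1)) ^ 2) ^ j * (((M : ℝ) + 1) * (1 / ((M : ℝ) + 1))) ^ 2 := by ring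
    _ = _ := by rw [h1]; ring

theorem res_p (M j : ℕ) : res M (∑ i : Fin (3 + (M + 1) ^ 2), (X i : MvPolynomial _ ℝ) ^ (2 * (j + 1))) =
    P (2 * (j + 1)) + C ((1 / ((M : ℝ) + 1)) ^ 2) ^ j := by
  rw [← C_pow, ← p_eq]
  unfold res P
  rw [map_sum, Fin.sum_univ_add]
  simp only [map_pow, aeval_X, Fin.addCases_left, Fin.addCases_right]
  congr 1
  rw [Finset.sum_const, Finset.card_univ, Fintype.card_fin, nsmul_eq_mul, C_mul]
  rw [C_pow, C_pow]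
  congr 1
  push_cast
  rw [C_add]
  simp

theorem t_RE : S_RE := by
  intro k M h
  have h1 := SOS_map (res M) h
  have q2 := res_p M 0
  have q4 := res_p M 1
  have q6 := res_p M 2
  have q8 := res_p M 3
  have q10 := res_p M 4
  have q12 := res_p M 5
  have q20 := res_p M 9
  simp only [Nat.reduceAdd, Nat.reduceMul, pow_zero, pow_one] at q2 q4 q6 q8 q10 q12 q20
  unfold FF
  generalize (1 / ((M : ℝ) + 1)) ^ 2 = E at *
  unfold trunc gg hh at h1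
  simp only [map_add, map_mul, map_sub, map_pow, aeval_X, map_ofNat, q2, q4, q6, q8, q10, q12, q20] at h1
  unfold hh
  simp only [C_pow]
  exact h1

end Run7.h355.PS
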